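import Pool.Agent.Helper99_Eng3.Defs

/-!
# Squad ENG, part 3: statements of all modules.  Proofs on paper: /team-store/PLAN_ENG3.md
-/

set_option autoImplicit false

namespace Pool.Agent.Eng

open Matrix

/-! ## Part A : framework -/

/-- OEIC: Eichler transformations belong to `Ω`. -/
def OeicStmt : Prop := ∀ (F V : Type) [Field F] [Finite F] [AddCommGroup V] [Module F V]
  [FiniteDimensional F V] (Q : QuadraticForm F V), ND Q → 5 ≤ Module.finrank F V →
  ∀ v x : V, Q v = 0 → QuadraticMap.polar Q v x = 0 → ∃ g ∈ OmV Q, ∀ z : V,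
    g z = z + QuadraticMap.polar Q z v • x - QuadraticMap.polar Q z x • v
      - (Q x * QuadraticMap.polar Q z v) • v

/-- OCEN: the center of `Ω` consists of scalars. -/
def OcenStmt : Prop := ∀ (F V : Type) [Field F] [Finite F] [AddCommGroup V] [Module F V]
  [FiniteDimensional F V] (Q : QuadraticForm F V), ND Q → 7 ≤ Module.finrank F V →
  ∀ g ∈ OmV Q, (∀ h ∈ OmV Q, h * g = g * h) → IsScal g

/-- OLW: the law of `PΩ` for `x ∈ O`, `y ∈ Ω`. -/
def OlwStmt : Prop := ∀ (F V : Type) [Field F] [Finite F] [AddCommGroup V] [Module F V]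
  [FiniteDimensional F V] (Q : QuadraticForm F V), ND Q → 7 ≤ Module.finrank F V →
  ∀ d : ℕ, Law (POm Q) d → OLaw Q d

/-- OEXT: extension of isometries by the identity on the orthogonal complement. -/
def OextStmt : Prop := ∀ (F U V : Type) [Field F] [AddCommGroup U] [Module F U]
  [AddCommGroup V] [Module F V] [FiniteDimensional F U] [FiniteDimensional F V]
  (P : QuadraticForm F U) (Q : QuadraticForm F V) (ι : U →ₗ[F] V), ND P →
  (∀ u, Q (ι u) = P u) → ∃ Φ : ↥(OV P) →* (V ≃ₗ[F] V), (∀ g, Φ g ∈ OV Q) ∧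
    (∀ (g : ↥(OV P)) (u : U), Φ g (ι u) = ι ((g : U ≃ₗ[F] U) u)) ∧
    (∀ (g : ↥(OV P)) (v : V), (∀ u, QuadraticMap.polar Q v (ι u) = 0) → Φ g v = v) ∧
    ∀ g : ↥(OV P), (g : U ≃ₗ[F] U) ∈ OmV P → Φ g ∈ OmV Q

/-- OTR: isometric embeddings. -/
def OtrStmt : Prop := ∀ (F U V : Type) [Field F] [AddCommGroup U] [Module F U]
  [AddCommGroup V] [Module F V] [FiniteDimensional F U] [FiniteDimensional F V]
  (P : QuadraticForm F U) (Q : QuadraticForm F V) (ι : U →ₗ[F] V), ND P →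
  (∀ u, Q (ι u) = P u) → ∀ d : ℕ, OLaw Q d → OLaw P d

/-- OREAL: cyclic isometries are conjugate to their inverses. -/
def OrealStmt : Prop := ∀ (F V : Type) [Field F] [Finite F] [AddCommGroup V] [Module F V]
  [FiniteDimensional F V] (Q : QuadraticForm F V), ND Q → ∀ g ∈ OV Q, ∀ θ : V,
  Submodule.span F (Set.range fun i : ℕ => (g ^ i) θ) = ⊤ →
  g * g ∈ OmV Q ∧ (Odd (orderOf g) → g ∈ OmV Q)

/-- OBR: the braid trick. -/
def ObrStmt : Prop := ∀ (F V : Type) [Field F] [AddCommGroup V] [Module F V]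
  (Q : QuadraticForm F V), ∀ w ∈ OmV Q, ∀ z ∈ OV Q, z * w * z = w * z * w → ∀ N : ℕ,
  (∀ (d : ℕ) (c : F), 0 < d → (∀ v, z ((w ^ (2 * d)) v) = c • (w ^ (2 * d)) (z v)) → N ∣ d) →
  OD Q N

/-! ## Part B : totally singular subspaces -/

/-- OHYD: existence of totally singular subspaces. -/
def OhydStmt : Prop := ∀ (F V : Type) [Field F] [Finite F] [AddCommGroup V] [Module F V]
  [FiniteDimensional F V] (Q : QuadraticForm F V) (e : ℕ), ND Q →
  2 * e + 1 ≤ Module.finrank F V → ∃ W : Submodule F V, Module.finrank F W = e ∧ ∀ w ∈ W, Q w = 0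

/-- OHYB: hyperbolic bases. -/
def OhybStmt : Prop := ∀ (F V : Type) [Field F] [AddCommGroup V] [Module F V]
  [FiniteDimensional F V] (Q : QuadraticForm F V) (e : ℕ) (W : Submodule F V), ND Q →
  Module.finrank F W = e → (∀ w ∈ W, Q w = 0) →
  ∃ ι : ((Fin e → F) × (Fin e → F)) →ₗ[F] V, ∀ a b, Q (ι (a, b)) = ∑ i, a i * b i

/-- OHYP: the same with a field extension. -/
def OhypStmt : Prop := ∀ (F V K : Type) [Field F] [Finite F] [AddCommGroup V] [Module F V]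
  [FiniteDimensional F V] [Field K] [Algebra F K] [FiniteDimensional F K]
  (Q : QuadraticForm F V) (W : Submodule F V), ND Q →
  Module.finrank F W = Module.finrank F K → (∀ w ∈ W, Q w = 0) →
  ∃ ι : (K × K) →ₗ[F] V, ∀ a b : K, Q (ι (a, b)) = Algebra.trace F K (a * b)

/-- OPAR: the field acts on the unipotent radical. -/
def OparStmt : Prop := ∀ (F V K : Type) [Field F] [Finite F] [AddCommGroup V] [Module F V]
  [FiniteDimensional F V] [Field K] [Algebra F K] [FiniteDimensional F K]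
  (Q : QuadraticForm F V) (ι : (K × K) →ₗ[F] V), ND Q →
  (∀ a b : K, Q (ι (a, b)) = Algebra.trace F K (a * b)) →
  2 * Module.finrank F K < Module.finrank F V → ∀ ρ : K, ρ ≠ 0 → ∀ d : ℕ, OLaw Q d →
  ∃ r : ℕ, (ρ ^ 2 - 1) ^ (r + d) = (ρ ^ 2 - 1) ^ r

/-- OLAM: the field acts on alternating forms. -/
def OlamStmt : Prop := ∀ (F V K : Type) [Field F] [Finite F] [AddCommGroup V] [Module F V]
  [FiniteDimensional F V] [Field K] [Algebra F K] [FiniteDimensional F K]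
  (Q : QuadraticForm F V) (ι : (K × K) →ₗ[F] V),
  (∀ a b : K, Q (ι (a, b)) = Algebra.trace F K (a * b)) → ∀ i : ℕ, 0 < i →
  i < Module.finrank F K → 2 * i ≠ Module.finrank F K → ∀ ρ : K, ρ ≠ 0 → ∀ d : ℕ, OLaw Q d →
  ∃ r : ℕ, (ρ ^ (2 * (1 + Nat.card F ^ i)) - 1) ^ (r + d)
    = (ρ ^ (2 * (1 + Nat.card F ^ i)) - 1) ^ r

/-- OPTS: totally singular irreducible subspaces. -/
def OptsStmt : Prop := ∀ (F V K : Type) [Field F] [Finite F] [AddCommGroup V] [Module F V]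
  [FiniteDimensional F V] [Field K] [Algebra F K] [FiniteDimensional F K]
  (Q : QuadraticForm F V) (W : Submodule F V) (lam : K) (p k : ℕ), ND Q →
  7 ≤ Module.finrank F V → Module.finrank F W = Module.finrank F K → (∀ w ∈ W, Q w = 0) →
  Algebra.adjoin F {lam} = ⊤ → p.Prime → p ≠ 2 → 1 ≤ k → orderOf lam = p ^ k → OD Q (p ^ k)

/-! ## Part C : nondegenerate irreducible subspaces -/

/-- OSTD: the standard form exists and is nondegenerate. -/
def OstdStmt : Prop := ∀ (F K : Type) [Field F] [Finite F] [Field K] [Algebra F K]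
  [FiniteDimensional F K] (m : ℕ), 1 ≤ m → Module.finrank F K = 2 * m →
  (∃ Q : QuadraticForm F K, IsStd m Q) ∧ ∀ Q : QuadraticForm F K, IsStd m Q → ND Q

/-- OIRR: irreducible isometries. -/
def OirrStmt : Prop := ∀ (F U : Type) [Field F] [Finite F] [AddCommGroup U] [Module F U]
  [FiniteDimensional F U] (P : QuadraticForm F U), ND P → 2 ≤ Module.finrank F U →
  ∀ g ∈ OV P, (∀ W : Submodule F U, (∀ x ∈ W, g x ∈ W) → W = ⊥ ∨ W = ⊤) →
  ∃ (m : ℕ) (K : Type) (_ : Field K) (_ : Algebra F K) (_ : FiniteDimensional F K) (lam : K)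
    (QK : QuadraticForm F K) (φ : U ≃ₗ[F] K), 1 ≤ m ∧ Module.finrank F K = 2 * m ∧
    IsStd m QK ∧ Algebra.adjoin F {lam} = ⊤ ∧ lam ^ (Nat.card F ^ m + 1) = 1 ∧
    (∀ u, φ (g u) = lam * φ u) ∧ ∀ u, QK (φ u) = P u

/-- OIRI: standard forms of the same dimension are isometric. -/
def OiriStmt : Prop := ∀ (F K K' : Type) [Field F] [Finite F] [Field K] [Algebra F K]
  [FiniteDimensional F K] [Field K'] [Algebra F K'] [FiniteDimensional F K'] (m : ℕ)
  (Q : QuadraticForm F K) (Q' : QuadraticForm F K'), 1 ≤ m → Module.finrank F K = 2 * m →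
  Module.finrank F K' = 2 * m → IsStd m Q → IsStd m Q' → ∃ φ : K ≃ₗ[F] K', ∀ x, Q' (φ x) = Q x

/-- OIRT: any irreducible configuration can be transferred to the standard space. -/
def OirtStmt : Prop := ∀ (F U K : Type) [Field F] [Finite F] [AddCommGroup U] [Module F U]
  [FiniteDimensional F U] [Field K] [Algebra F K] [FiniteDimensional F K]
  (P : QuadraticForm F U) (Q : QuadraticForm F K) (m : ℕ), ND P → 1 ≤ m →
  Module.finrank F U = 2 * m → Module.finrank F K = 2 * m → IsStd m Q → ∀ g ∈ OV P,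
  (∀ W : Submodule F U, (∀ x ∈ W, g x ∈ W) → W = ⊥ ∨ W = ⊤) → ∀ d : ℕ, OLaw Q d → OLaw P d

/-- OCEV: `m` even. -/
def OcevStmt : Prop := ∀ (F K : Type) [Field F] [Finite F] [Field K] [Algebra F K]
  [FiniteDimensional F K] (Q : QuadraticForm F K) (m p k : ℕ) (lam : K), 1 ≤ m → Even m →
  Module.finrank F K = 2 * m → IsStd m Q → Algebra.adjoin F {lam} = ⊤ →
  lam ^ (Nat.card F ^ m + 1) = 1 → p.Prime → p ≠ 2 → 1 ≤ k → orderOf lam = p ^ k →
  OD Q (p ^ k)

/-- OCUN: `m` odd, `p` does not divide `q + 1`. -/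
def OcunStmt : Prop := ∀ (F K : Type) [Field F] [Finite F] [Field K] [Algebra F K]
  [FiniteDimensional F K] (Q : QuadraticForm F K) (m p k : ℕ) (lam : K), 3 ≤ m → Odd m →
  Module.finrank F K = 2 * m → IsStd m Q → Algebra.adjoin F {lam} = ⊤ →
  lam ^ (Nat.card F ^ m + 1) = 1 → p.Prime → p ≠ 2 → ¬ p ∣ Nat.card F + 1 → 1 ≤ k →
  orderOf lam = p ^ k → OD Q (p ^ k)

/-- OCMO: `m` odd, `p` divides `q + 1`. -/
def OcmoStmt : Prop := ∀ (F K : Type) [Field F] [Finite F] [Field K] [Algebra F K]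
  [FiniteDimensional F K] (Q : QuadraticForm F K) (m p k : ℕ) (lam : K), 3 ≤ m → Odd m →
  Module.finrank F K = 2 * m → IsStd m Q → Algebra.adjoin F {lam} = ⊤ →
  lam ^ (Nat.card F ^ m + 1) = 1 → p.Prime → p ≠ 2 → p ∣ Nat.card F + 1 → 1 ≤ k →
  orderOf lam = p ^ k → OD Q (p ^ k)

/-- ODM1: `m = 1`. -/
def Odm1Stmt : Prop := ∀ (F V K : Type) [Field F] [Finite F] [AddCommGroup V] [Module F V]
  [FiniteDimensional F V] [Field K] [Algebra F K] [FiniteDimensional F K]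
  (Q : QuadraticForm F V) (P : QuadraticForm F K) (ι : K →ₗ[F] V) (p k : ℕ) (lam : K), ND Q →
  5 ≤ Module.finrank F V → Module.finrank F K = 2 → IsStd 1 P → (∀ x, Q (ι x) = P x) →
  lam ^ (Nat.card F + 1) = 1 → p.Prime → p ≠ 2 → 1 ≤ k → orderOf lam = p ^ k → OD Q (p ^ k)

/-- OPND: nondegenerate irreducible subspaces. -/
def OpndStmt : Prop := ∀ (F V U : Type) [Field F] [Finite F] [AddCommGroup V] [Module F V]
  [FiniteDimensional F V] [AddCommGroup U] [Module F U] [FiniteDimensional F U]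
  (Q : QuadraticForm F V) (P : QuadraticForm F U) (ι : U →ₗ[F] V) (p k : ℕ), ND Q → ND P →
  5 ≤ Module.finrank F V → 2 ≤ Module.finrank F U → (∀ x, Q (ι x) = P x) → ∀ g ∈ OV P,
  (∀ W : Submodule F U, (∀ x ∈ W, g x ∈ W) → W = ⊥ ∨ W = ⊤) → p.Prime → p ≠ 2 → 1 ≤ k →
  orderOf g = p ^ k → OD Q (p ^ k)

/-- ODEC: an irreducible subspace on which `g` has full order. -/
def OdecStmt : Prop := ∀ (F V : Type) [Field F] [Finite F] [AddCommGroup V] [Module F V]
  [FiniteDimensional F V] (Q : QuadraticForm F V) (p k : ℕ), ND Q → ∀ g ∈ OV Q, p.Prime →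
  (p : F) ≠ 0 → 1 ≤ k → 3 ≤ p ^ k → orderOf g = p ^ k →
  ∃ W : Submodule F V, W ≠ ⊥ ∧ (∀ x ∈ W, g x ∈ W) ∧
    (∀ W' : Submodule F V, W' ≤ W → (∀ x ∈ W', g x ∈ W') → W' = ⊥ ∨ W' = W) ∧
    (∀ d : ℕ, (∀ w ∈ W, (g ^ d) w = w) → p ^ k ∣ d) ∧
    ((∀ w ∈ W, Q w = 0) ∨ (2 ≤ Module.finrank F W ∧
      ∀ u ∈ W, (∀ v ∈ W, QuadraticMap.polar Q u v = 0) → u = 0))

/-- OODD: odd primes different from the characteristic. -/
def OoddStmt : Prop := ∀ (F V : Type) [Field F] [Finite F] [AddCommGroup V] [Module F V]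
  [FiniteDimensional F V] (Q : QuadraticForm F V) (p k : ℕ), ND Q → 7 ≤ Module.finrank F V →
  p.Prime → p ≠ 2 → (p : F) ≠ 0 → (∃ y : POm Q, orderOf y = p ^ k) → OD Q (p ^ k)

/-! ## Part D : the 2-part, odd characteristic -/

/-- OD2L: lower bound for the period. -/
def Od2lStmt : Prop := ∀ (F V : Type) [Field F] [Finite F] [AddCommGroup V] [Module F V]
  [FiniteDimensional F V] (Q : QuadraticForm F V) (e k : ℕ), ND Q → (2 : F) ≠ 0 → 2 ≤ e →
  2 * e < Module.finrank F V → 2 ^ k ∣ Nat.card F ^ e - 1 → OD Q (2 ^ k)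

/-- OD2U: upper bound for the order. -/
def Od2uStmt : Prop := ∀ (F V : Type) [Field F] [Finite F] [AddCommGroup V] [Module F V]
  [FiniteDimensional F V] (Q : QuadraticForm F V) (j k : ℕ), ND Q → (2 : F) ≠ 0 → 1 ≤ j →
  2 * 2 ^ j < Module.finrank F V → Module.finrank F V ≤ 4 * 2 ^ j →
  (∃ y : POm Q, orderOf y = 2 ^ k) → 2 ^ k ∣ Nat.card F ^ (2 ^ j) - 1

/-- OTWO -/
def OtwoStmt : Prop := ∀ (F V : Type) [Field F] [Finite F] [AddCommGroup V] [Module F V]
  [FiniteDimensional F V] (Q : QuadraticForm F V) (k : ℕ), ND Q → 7 ≤ Module.finrank F V →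
  (2 : F) ≠ 0 → (∃ y : POm Q, orderOf y = 2 ^ k) → OD Q (2 ^ k)

/-! ## Part W : the wreath product -/

/-- OWRS: a sign vector on which the Engel map acts as a rotation. -/
def OwrsStmt : Prop := ∀ p b : ℕ, p.Prime → p ≠ 2 → 1 ≤ b →
  ∃ (e : ZMod (p ^ b) → ℤˣ) (s i : ℕ), 0 < s ∧ ¬ p ∣ i ∧ (∃ j, e j = -1) ∧
    (∀ l : ℕ, (∀ j, e (j + (l : ZMod (p ^ b))) = e j) → p ^ b ∣ l) ∧
    tws^[s] e = fun j => e (j + (i : ZMod (p ^ b)))

/-- OAFL: linear algebra over `ℤ/p^a`. -/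
def OaflStmt : Prop := ∀ (p b a : ℕ) (W : Type) [AddCommGroup W] [Module (ZMod (p ^ a)) W]
  [Module.Free (ZMod (p ^ a)) W] [Module.Finite (ZMod (p ^ a)) W]
  (E : W →ₗ[ZMod (p ^ a)] W) (κ τ w : W) (i n : ℕ), p.Prime → 1 ≤ a →
  Module.finrank (ZMod (p ^ a)) W = p ^ b + 1 → E κ = 0 → (¬ ∃ v : W, κ = p • v) → E τ = τ →
  (¬ ∃ v : W, τ = p • v) → ¬ p ∣ i → 0 < n → (E ^ (p ^ b * n)) w = w + (i * n) • τ → p ^ a ∣ n

/-- OWR: long Engel cycles in the wreath product. -/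
def OwrStmt : Prop := ∀ p b a : ℕ, p.Prime → p ≠ 2 → 1 ≤ b → 1 ≤ a →
  ∃ x : ZMod (p ^ b) → ZMod (p ^ a) × ℤˣ, ∀ r n : ℕ, 0 < n →
    tw^[r + n] x = tw^[r] x → p ^ (b + a) ∣ n

/-! ## Part E : unipotent elements, odd characteristic -/

/-- OE1: the prime `p` itself. -/
def Oe1Stmt : Prop := ∀ (F V : Type) [Field F] [Finite F] [AddCommGroup V] [Module F V]
  [FiniteDimensional F V] (Q : QuadraticForm F V) (p : ℕ) [CharP F p], ND Q → p.Prime →
  p ≠ 2 → 5 ≤ Module.finrank F V → OD Q p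

/-- OEUB: bound for the order. -/
def OeubStmt : Prop := ∀ (F V : Type) [Field F] [AddCommGroup V] [Module F V]
  [FiniteDimensional F V] (Q : QuadraticForm F V) (p k : ℕ) [CharP F p], ND Q → p.Prime →
  p ≠ 2 → 2 ≤ k → ∀ g ∈ OV Q, orderOf g = p ^ k → p ^ (k - 1) + 2 ≤ Module.finrank F V

/-- OEOB: a multiple of a sum of squares plus a hyperbolic plane. -/
def OeobStmt : Prop := ∀ (F V : Type) [Field F] [Finite F] [AddCommGroup V] [Module F V]
  [FiniteDimensional F V] (Q : QuadraticForm F V) (m : ℕ) [NeZero m], ND Q → (2 : F) ≠ 0 →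
  Odd m → m + 2 ≤ Module.finrank F V → ∃ (l : F) (ι : ((ZMod m → F) × F × F) →ₗ[F] V), l ≠ 0 ∧
    ∀ (x : ZMod m → F) (a b : F), Q (ι (x, a, b)) = l * ∑ i, x i ^ 2 + a * b

/-- OE2: higher powers of `p`. -/
def Oe2Stmt : Prop := ∀ (F V : Type) [Field F] [Finite F] [AddCommGroup V] [Module F V]
  [FiniteDimensional F V] (Q : QuadraticForm F V) (p k : ℕ) [CharP F p], ND Q → p.Prime →
  p ≠ 2 → 2 ≤ k → p ^ (k - 1) + 2 ≤ Module.finrank F V → OD Q (p ^ k)

/-! ## Part T : characteristic 2, the 2-part -/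

/-- OT8: the group `SL(3,2)`. -/
def Ot8Stmt : Prop := ∀ (F V : Type) [Field F] [Finite F] [AddCommGroup V] [Module F V]
  [FiniteDimensional F V] (Q : QuadraticForm F V), ND Q → (2 : F) = 0 →
  7 ≤ Module.finrank F V → OD Q 8

/-- OTB: symplectic bases adapted to a quadratic form over `F₂`. -/
def OtbStmt : Prop := ∀ (U : Type) [AddCommGroup U] [Module (ZMod 2) U]
  [FiniteDimensional (ZMod 2) U] (P : QuadraticForm (ZMod 2) U) (n : ℕ), ND P →
  Module.finrank (ZMod 2) U = 2 * n + 2 →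
  ∃ (c : ZMod 2) (φ : U ≃ₗ[ZMod 2]
      ((Fin n → ZMod 2) × (Fin n → ZMod 2) × ZMod 2 × ZMod 2)),
    ∀ u, P u = ∑ i, (φ u).1 i * (φ u).2.1 i + (φ u).2.2.1 * (φ u).2.2.2
      + c * ((φ u).2.2.1 ^ 2 + (φ u).2.2.2 ^ 2)

/-- OTF: the same form inside every larger space over `F`. -/
def OtfStmt : Prop := ∀ (F V : Type) [Field F] [Finite F] [AddCommGroup V] [Module F V]
  [FiniteDimensional F V] (Q : QuadraticForm F V) (n : ℕ) (c : F), ND Q → (2 : F) = 0 →
  (c = 0 ∨ c = 1) → 2 * n + 4 ≤ Module.finrank F V →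
  ∃ ι : ((Fin n → F) × (Fin n → F) × F × F) →ₗ[F] V, ∀ a b s t,
    Q (ι (a, b, s, t)) = ∑ i, a i * b i + s * t + c * (s ^ 2 + t ^ 2)

/-- OTE: forms over `F₂` inside forms over `F`. -/
def OteStmt : Prop := ∀ (F V U : Type) [Field F] [Finite F] [AddCommGroup V] [Module F V]
  [FiniteDimensional F V] [AddCommGroup U] [Module (ZMod 2) U] [FiniteDimensional (ZMod 2) U]
  (Q : QuadraticForm F V) (P : QuadraticForm (ZMod 2) U), ND Q → ND P → (2 : F) = 0 →
  2 ≤ Module.finrank (ZMod 2) U → Module.finrank (ZMod 2) U + 2 ≤ Module.finrank F V →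
  ∀ d : ℕ, OLaw Q d → OLaw P d

/-- OTK: the group `C_P : ⟨σ²⟩` in characteristic 2. -/
def OtkStmt : Prop := ∀ t : ℕ, 2 ≤ t → ∃ (U : Type) (_ : AddCommGroup U)
  (_ : Module (ZMod 2) U) (_ : FiniteDimensional (ZMod 2) U) (P : QuadraticForm (ZMod 2) U),
  ND P ∧ Module.finrank (ZMod 2) U = 2 ^ (t + 1) ∧ OD P (2 ^ (t + 2))

/-- OTT: the 2-part in characteristic 2. -/
def OttStmt : Prop := ∀ (F V : Type) [Field F] [Finite F] [AddCommGroup V] [Module F V]
  [FiniteDimensional F V] (Q : QuadraticForm F V) (k : ℕ), ND Q → 7 ≤ Module.finrank F V →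
  (2 : F) = 0 → (∃ y : POm Q, orderOf y = 2 ^ k) → OD Q (2 ^ k)

/-! ## Final statement -/

/-- MOM -/
def MainOmStmt : Prop := ∀ (F V : Type) [Field F] [Finite F] [AddCommGroup V] [Module F V]
  [FiniteDimensional F V] (Q : QuadraticForm F V), ND Q → 7 ≤ Module.finrank F V →
  PD (POm Q) (Monoid.exponent (POm Q))

end Pool.Agent.Eng
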