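import Pool.Agent.Helper13_Eng2.AllSu
import Pool.Agent.Helper99_Eng3.Stmts
import Pool.Agent.Helper81_ENG3.Olw
import Pool.Agent.Helper13_Eng.Oafl
import Pool.Agent.Helper13_Eng.Ocun
import Pool.Agent.Helper93_Eng.Obr
import Pool.Agent.Helper93_Eng.Oiri
import Pool.Agent.Helper54_Eng3.Ocen
import Pool.Agent.Helper54_Eng3.Ote
import Pool.Agent.Helper9_Eng.Ocev
import Pool.Agent.Helper75_Eng3.Ocmo
import Pool.Agent.Helper75_Eng3.Oirr
import Pool.Agent.Helper47_Eng.Od2l
import Pool.Agent.Helper47_Eng.Oodd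
import Pool.Agent.Helper38_Eng.Od2u
import Pool.Agent.Helper38_Eng.Odec
import Pool.Agent.Helper65_Eng.Odm1
import Pool.Agent.Helper65_Eng.Ohyd
import Pool.Agent.Helper49_Eng.Oe1
import Pool.Agent.Helper49_Eng.Oeob
import Pool.Agent.Helper70_Eng.Oe2
import Pool.Agent.Helper70_Eng.Owrs
import Pool.Agent.Helper35_Eng.Oeub
import Pool.Agent.Helper35_Eng.Oreal
import Pool.Agent.Helper72_Eng.Ohyb
import Pool.Agent.Helper72_Eng.Ott
import Pool.Agent.Helper37_Eng.Ohyp
import Pool.Agent.Helper37_Eng.Olam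
import Pool.Agent.Helper50_Eng.Oirt
import Pool.Agent.Helper63_Eng.Opar
import Pool.Agent.Helper14_Eng.Opts
import Pool.Agent.Helper14_Eng.Otf
import Pool.Agent.Helper34_Eng.Ostd
import Pool.Agent.Helper23_Eng.Otb
import Pool.Agent.Helper1_Eng.Otk
import Pool.Agent.Helper99_Eng.Otr
import Pool.Agent.Helper99_Eng.Owr
import Pool.Agent.Helper61_Eng.Oext
import Pool.Agent.Helper61_Eng.Oeic
import Pool.Agent.Helper99_Eng.Otwo
import Pool.Agent.Helper99_Eng.Ot8

/-! Squad ENG, part 3: assembly of the modules (orthogonal groups). -/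

set_option autoImplicit false

namespace Pool.Agent.Eng

theorem o_ext : OextStmt := H61.oext
theorem o_hyd : OhydStmt := H65.ohyd
theorem o_hyb : OhybStmt := H72.ohyb
theorem o_real : OrealStmt := H35.oreal
theorem o_br : ObrStmt := H93.obr
theorem o_std : OstdStmt := H34.ostd
theorem o_hyp : OhypStmt := H37.ohyp o_hyb
theorem o_par : OparStmt := H63.opar
theorem o_iri : OiriStmt := H93.oiri
theorem o_wr : OwrStmt := H99.owr H70.owrs H13.oafl
theorem o_irr : OirrStmt := H75.oirr H26.lir o_std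
theorem o_cev : OcevStmt := H9.ocev o_br
theorem o_cmo : OcmoStmt := H75.ocmo o_std o_real o_wr
theorem o_dec : OdecStmt := H38.odec H26.lss
theorem o_d2u : Od2uStmt := H38.od2u a_lift H26.lir o_dec o_irr
theorem o_d2l : Od2lStmt := H47.od2l o_hyd o_hyp o_par H4.dns H47.wns
theorem o_eob : OeobStmt := H49.oeob o_hyd o_hyb
theorem o_eub : OeubStmt := H35.oeub
theorem o_tb : OtbStmt := H23.otb o_hyd o_hyb
theorem o_tf : OtfStmt := H14.otf o_hyd o_hyb
theorem o_tk : OtkStmt := H1.otk H54.tnt o_std o_real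
theorem o_tr : OtrStmt := H99.otr o_ext
theorem o_irt : OirtStmt := H50.oirt o_irr o_iri o_tr
theorem o_cun : OcunStmt := H13.ocun a_vrk o_real o_br o_irt
theorem o_dm1 : Odm1Stmt := H65.odm1 o_real o_ext o_hyd o_std
theorem o_pnd : OpndStmt := H50.opnd o_irr o_tr o_std o_cev o_cun o_cmo o_dm1
theorem o_lam : OlamStmt := H37.olam o_tr
theorem o_pts : OptsStmt := H14.opts o_hyp o_par o_lam
theorem o_odd : OoddStmt := H47.oodd a_lift H26.lir o_dec o_pts o_pnd
theorem o_e1 : Oe1Stmt := H49.oe1 o_hyd o_hyb o_tr o_br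
theorem o_te : OteStmt := H54.ote o_tb o_tf o_tr

theorem o_eic : OeicStmt := H61.oeic
theorem o_cen : OcenStmt := H54C.ocen o_eic o_hyd
theorem o_lw : OlwStmt := H81.olw o_cen
theorem o_e2 : Oe2Stmt := H70.oe2 o_wr o_eic o_eob o_tr
theorem o_two : OtwoStmt := H99.otwo o_d2u o_d2l

theorem o_t8 : Ot8Stmt := H99.ot8 o_hyd o_hyb o_tr
theorem o_tt : OttStmt := H72.ott a_lift H4.gun o_t8 o_te o_tk

theorem mainOm : MainOmStmt := H81.mom H18.fexp a_lift o_lw o_e1 o_eub o_e2 o_tt o_odd o_two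

end Pool.Agent.Eng
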