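import Pool.Agent.Helper13_Eng2.Stmts

/-!
# Squad ENG, part 3 (MP_da8eb3_al): orthogonal groups.  Definitions.
Proofs on paper: /team-store/PLAN_ENG3.md

Target: for every finite field `F` and every nondegenerate quadratic form `Q` on a space `V` of
dimension at least `7` over `F`, `exp (PΩ(V,Q))` divides `d (PΩ(V,Q))`, where `Ω(V,Q)` is the
commutator subgroup of the isometry group `O(V,Q)` and `PΩ(V,Q) = Ω(V,Q)/Z(Ω(V,Q))`.
-/

set_option autoImplicit false

namespace Pool.Agent.Eng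

section
variable {F V U : Type} [Field F] [AddCommGroup V] [Module F V] [AddCommGroup U] [Module F U]

/-- The isometry group `O(V,Q)` of a quadratic form. -/
def OV (Q : QuadraticForm F V) : Subgroup (V ≃ₗ[F] V) where
  carrier := {g | ∀ v, Q (g v) = Q v}
  mul_mem' := by
    intro a b ha hb v
    change Q (a (b v)) = Q v
    rw [ha, hb]
  one_mem' := by
    intro v
    rfl
  inv_mem' := by
    intro a ha v
    change Q (a.symm v) = Q v
    have := ha (a.symm v)
    simpa using this.symm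

/-- `Ω(V,Q)`, the commutator subgroup of `O(V,Q)`. -/
def OmV (Q : QuadraticForm F V) : Subgroup (V ≃ₗ[F] V) := ⁅OV Q, OV Q⁆

/-- `PΩ(V,Q) = Ω(V,Q)/Z(Ω(V,Q))`. -/
abbrev POm (Q : QuadraticForm F V) : Type := ↥(OmV Q) ⧸ Subgroup.center ↥(OmV Q)

/-- The polar form of `Q` is nondegenerate. -/
def ND (Q : QuadraticForm F V) : Prop := ∀ u, (∀ v, QuadraticMap.polar Q u v = 0) → u = 0

/-- The Engel law of period `d` for `x ∈ O(V,Q)`, `y ∈ Ω(V,Q)`, modulo scalars. -/
def OLaw (Q : QuadraticForm F V) (d : ℕ) : Prop :=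
  ∃ r : ℕ, ∀ x ∈ OV Q, ∀ y ∈ OmV Q, ∃ c : F, ∀ v : V,
    ((eng y)^[r + d] x) v = c • ((eng y)^[r] x) v

/-- `N` divides all periods of `Q`. -/
def OD (Q : QuadraticForm F V) (N : ℕ) : Prop := ∀ d : ℕ, 0 < d → OLaw Q d → N ∣ d

end

/-- The standard form `Tr_{K₀/F}(x x̄)` on a field `K` of degree `2m` over `F`, `|F| = q`,
`x̄ = x^(q^m)`, `K₀` the fixed field of `x ↦ x̄`. -/
def IsStd {F K : Type} [Field F] [Field K] [Algebra F K] (m : ℕ) (Q : QuadraticForm F K) : Prop :=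
  ∀ x : K, algebraMap F K (Q x) =
    ∑ i ∈ Finset.range m, (x ^ (1 + Nat.card F ^ m)) ^ (Nat.card F ^ i)

/-- One step of the Engel map in the wreath product of `R ⋊ {1,-1}` with a cyclic group:
`x ↦ x⁻¹ (y⁻¹ x y)` for `x` in the base group, `y = (1, 0, …, 0) · shift`. The element `(n, e)` of
`R ⋊ {1,-1}` is the map `z ↦ e z + n`. -/
def tw {m : ℕ} {R : Type} [CommRing R] (x : ZMod m → R × ℤˣ) (j : ZMod m) : R × ℤˣ :=
  ((((x j).2 : ℤ) : R) *
      ((if j = -1 then (x 0).1 - 1 + (((x 0).2 : ℤ) : R) else (x (j + 1)).1) - (x j).1),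
    (x j).2 * (x (j + 1)).2)

/-- The same for the signs. -/
def tws {m : ℕ} (e : ZMod m → ℤˣ) (j : ZMod m) : ℤˣ := e j * e (j + 1)

end Pool.Agent.Eng
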