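import Mathlib.LinearAlgebra.QuadraticForm.Basic
import Mathlib.LinearAlgebra.GeneralLinearGroup.Basic
import Mathlib.GroupTheory.Commutator.Basic
import Mathlib.GroupTheory.QuotientGroup.Basic
import Mathlib.GroupTheory.Exponent

/-!
# Definitions for the orthogonal groups (MP_da8eb3_al)
-/

set_option autoImplicit false

namespace Pool.Agent.Eng.Orth

/-- The isometry group `O(V,Q)` of a quadratic form. -/
def OGroup {F V : Type} [Field F] [AddCommGroup V] [Module F V] (Q : QuadraticForm F V) :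
    Subgroup (LinearMap.GeneralLinearGroup F V) where
  carrier := {g | ∀ v : V, Q ((g : V →ₗ[F] V) v) = Q v}
  mul_mem' := fun {_ b} ha hb v => (ha ((b : V →ₗ[F] V) v)).trans (hb v)
  one_mem' := fun _ => rfl
  inv_mem' := fun {a} ha v =>
    (ha (((a⁻¹ : LinearMap.GeneralLinearGroup F V) : V →ₗ[F] V) v)).symm.trans
      (congrArg Q (DFunLike.congr_fun a.mul_inv v))

/-- `Ω(V,Q)`, the commutator subgroup of `O(V,Q)`. -/
def Omega {F V : Type} [Field F] [AddCommGroup V] [Module F V] (Q : QuadraticForm F V) :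
    Subgroup (LinearMap.GeneralLinearGroup F V) := ⁅OGroup Q, OGroup Q⁆

/-- `PΩ(V,Q)`, the quotient of `Ω(V,Q)` by its center. -/
def POmega {F V : Type} [Field F] [AddCommGroup V] [Module F V] (Q : QuadraticForm F V) : Type :=
  ↥(Omega Q) ⧸ Subgroup.center ↥(Omega Q)

instance {F V : Type} [Field F] [AddCommGroup V] [Module F V] (Q : QuadraticForm F V) :
    Group (POmega Q) :=
  QuotientGroup.Quotient.group (Subgroup.center ↥(Omega Q))

/-- The positive integers `m` such that for some `r` the group satisfies the law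
`[x,_r y] = [x,_{r+m} y]`. -/
def engelPeriods (G : Type) [Group G] : Set ℕ :=
  {m : ℕ | 0 < m ∧ ∃ r : ℕ, ∀ x y : G,
    (fun z : G => z⁻¹ * y⁻¹ * z * y)^[r] x = (fun z : G => z⁻¹ * y⁻¹ * z * y)^[r + m] x}

end Pool.Agent.Eng.Orth
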