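import Pool.Agent.Helper99_Eng3.AllOm
import Pool.Agent.Helper99_Eng3.OmDefs

/-!
# Transfer from `POm Q` to `POmega Q` (MP_da8eb3_al)
-/

set_option autoImplicit false

namespace Pool.Agent.Eng.Orth

theorem map_OGroup {F V : Type} [Field F] [AddCommGroup V] [Module F V]
    (Q : QuadraticForm F V) :
    (OGroup Q).map (LinearMap.GeneralLinearGroup.generalLinearEquiv F V).toMonoidHom
      = Pool.Agent.Eng.OV Q := by
  ext g
  constructor
  · rintro ⟨a, ha, rfl⟩
    exact ha
  · intro hg
    refine ⟨(LinearMap.GeneralLinearGroup.generalLinearEquiv F V).symm g, ?_, ?_⟩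
    · exact hg
    · exact (LinearMap.GeneralLinearGroup.generalLinearEquiv F V).apply_symm_apply g

theorem map_Omega {F V : Type} [Field F] [AddCommGroup V] [Module F V]
    (Q : QuadraticForm F V) :
    (Omega Q).map (LinearMap.GeneralLinearGroup.generalLinearEquiv F V).toMonoidHom
      = Pool.Agent.Eng.OmV Q := by
  rw [Omega, Subgroup.map_commutator, map_OGroup, Pool.Agent.Eng.OmV]

theorem nonempty_equiv {F V : Type} [Field F] [AddCommGroup V] [Module F V]
    (Q : QuadraticForm F V) : Nonempty (POmega Q ≃* Pool.Agent.Eng.POm Q) := by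
  have e1 : ↥(Omega Q) ≃* ↥(Pool.Agent.Eng.OmV Q) :=
    ((LinearMap.GeneralLinearGroup.generalLinearEquiv F V).subgroupMap (Omega Q)).trans
      (MulEquiv.subgroupCongr (map_Omega Q))
  refine ⟨QuotientGroup.congr _ _ e1 ?_⟩
  ext x
  constructor
  · rintro ⟨a, ha, rfl⟩
    rw [Subgroup.mem_center_iff]
    intro g
    obtain ⟨b, rfl⟩ := e1.surjective g
    have := Subgroup.mem_center_iff.1 ha b
    exact (map_mul e1 b a).symm.trans ((congrArg e1 this).trans (map_mul e1 a b))
  · intro hx
    refine ⟨e1.symm x, ?_, e1.apply_symm_apply x⟩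
    have hx' := Subgroup.mem_center_iff.1 hx
    refine Subgroup.mem_center_iff.2 fun g => ?_
    apply e1.injective
    rw [map_mul, map_mul, e1.apply_symm_apply]
    exact hx' (e1 g)

theorem pd_equiv {G H : Type} [Group G] [Group H] (e : G ≃* H) (N : ℕ)
    (h : Pool.Agent.Eng.PD H N) : Pool.Agent.Eng.PD G N := by
  intro d hd hlaw
  refine h d hd ?_
  obtain ⟨r, hr⟩ := hlaw
  refine ⟨r, fun x y => ?_⟩
  have h1 := congrArg e (hr (e.symm x) (e.symm y))
  have key : ∀ n : ℕ, e ((Pool.Agent.Eng.eng (e.symm y))^[n] (e.symm x))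
      = (Pool.Agent.Eng.eng y)^[n] x := by
    intro n
    have h2 := Pool.Agent.Eng.H99.map_eng_iter e.toMonoidHom (e.symm y) n (e.symm x)
    simpa using h2
  have h3 := key r
  have h4 := key (r + d)
  exact h3.symm.trans (h1.trans h4)

theorem final (F V : Type) [Field F] [Finite F] [AddCommGroup V] [Module F V]
    [FiniteDimensional F V] (Q : QuadraticForm F V)
    (hQ : ∀ u : V, (∀ v : V, QuadraticMap.polar Q u v = 0) → u = 0)
    (hdim : 7 ≤ Module.finrank F V) (d : ℕ) (hd : IsLeast (engelPeriods (POmega Q)) d) :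
    Monoid.exponent (POmega Q) ∣ d := by
  obtain ⟨e⟩ := nonempty_equiv Q
  have h1 := Pool.Agent.Eng.mainOm F V Q hQ hdim
  rw [← Monoid.exponent_eq_of_mulEquiv e] at h1
  exact Pool.Agent.Eng.pd_final (pd_equiv e _ h1) d hd

end Pool.Agent.Eng.Orth
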